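import Mathlib
import Pool.Agent.R582.GR.Force
import Pool.Agent.R582.Coh.Real
import Pool.Agent.Results.MP_c0a48b_al.RectanglePrinciple

/-!
# MP_c0a48b_al, Q1: the negative answer is consistent
-/

set_option autoImplicit false

namespace Pool.Agent.Results.MP_c0a48b_al.ConsistentlyNot

open Set Pool.H845.LocClone
open scoped Cardinal
open Pool.Agent.H631R2 (Cond)
open Pool.Agent.R582.GR
open Pool.Agent.R582.Coh (B B_inj)
open Pool.Agent.Results.MP_c0a48b_al.RectanglePrinciple (RectSigma RectSigmaDelta)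

/-- The statement of Q1 (as in the frozen statement): every lattice with `2 ^ ℵ₀` elements in which
the chains have bounded finite size has a lattice embedding into the lattice `LC` of the local
clones on `ℕ`. -/
def Q1 : Prop :=
  ∀ (LC : Set (∀ n : ℕ, Set ((Fin (n+1) → ℕ) → ℕ))),
      (∀ C : ∀ n : ℕ, Set ((Fin (n+1) → ℕ) → ℕ), C ∈ LC ↔
        ((∀ (n : ℕ) (i : Fin (n+1)), (fun x : Fin (n+1) → ℕ => x i) ∈ C n) ∧
         (∀ (n m : ℕ) (g : (Fin (n+1) → ℕ) → ℕ) (hs : Fin (n+1) → (Fin (m+1) → ℕ) → ℕ),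
            g ∈ C n → (∀ i, hs i ∈ C m) →
              (fun x : Fin (m+1) → ℕ => g (fun i => hs i x)) ∈ C m) ∧
         (∀ (n : ℕ) (g : (Fin (n+1) → ℕ) → ℕ),
            (∀ F : Finset (Fin (n+1) → ℕ), ∃ h ∈ C n, ∀ x ∈ F, h x = g x) → g ∈ C n))) →
      ∀ (L : Type) [Lattice L],
        (∃ N : ℕ, ∀ s : Set L, IsChain (· ≤ ·) s → s.encard ≤ (N : ℕ∞)) →
        Cardinal.mk L = Cardinal.continuum →
        ∃ f : L → (∀ n : ℕ, Set ((Fin (n+1) → ℕ) → ℕ)),
          Function.Injective f ∧ (∀ a, f a ∈ LC) ∧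
          (∀ a b, f (a ⊓ b) = f a ⊓ f b) ∧
          (∀ a b, f a ≤ f (a ⊔ b) ∧ f b ≤ f (a ⊔ b)) ∧
          (∀ a b C, C ∈ LC → f a ≤ C → f b ≤ C → f (a ⊔ b) ≤ C)

theorem exists_real {K L : Type} (h : Hyp K L) : ∃ R : Set (ℝ × ℝ), ¬ RectSigmaDelta R := by
  classical
  obtain ⟨E, c, d, hc, hd, h⟩ := h
  let c' : K → ℝ := fun k => B fun n => decide (c k n)
  let d' : L → ℝ := fun l => B fun n => decide (d l n)
  have hc' : ∀ k k', c' k = c' k' → k = k' := by
    intro k k' hk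
    refine hc k k' fun n => ?_
    have := congrFun (B_inj hk) n
    simpa using this
  have hd' : ∀ l l', d' l = d' l' → l = l' := by
    intro l l' hl
    refine hd l l' fun n => ?_
    have := congrFun (B_inj hl) n
    simpa using this
  refine ⟨{z | ∃ k l, E k l ∧ z = (c' k, d' l)}, ?_⟩
  rintro ⟨U, hU, hR⟩
  choose A B' hAB using hU
  obtain ⟨k, l, hkl⟩ := h (fun m n k => c' k ∈ A m n) (fun m n l => d' l ∈ B' m n)
  apply hkl
  have h1 : E k l ↔ (c' k, d' l) ∈ {z : ℝ × ℝ | ∃ k l, E k l ∧ z = (c' k, d' l)} := by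
    constructor
    · intro he
      exact ⟨k, l, he, rfl⟩
    · rintro ⟨k', l', he, heq⟩
      rw [hc' _ _ (Prod.mk.inj heq).1, hd' _ _ (Prod.mk.inj heq).2]
      exact he
  rw [h1, hR]
  simp only [hAB, mem_iInter, mem_iUnion, mem_prod]

theorem exists_lattice {K L : Type} (h : Hyp K L) :
    ∃ (M : Type) (_ : Lattice M), (∀ s : Set M, IsChain (· ≤ ·) s → s.encard ≤ 4) ∧
      #M = Cardinal.continuum ∧ ¬ ∃ f : M → Ops, IsJoinEmbedding f := by
  obtain ⟨R, hR⟩ := exists_real h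
  exact RectanglePrinciple.result R hR

theorem not_Q1 {K L : Type} (h : Hyp K L) : ¬ Q1 := by
  intro hQ
  obtain ⟨M, inst, h1, h2, h3⟩ := exists_lattice h
  obtain ⟨f, hf1, hf2, -, hf3, hf4⟩ := hQ {C | IsLocalClone C} (fun C => Iff.rfl) M ⟨4, h1⟩ h2
  exact h3 ⟨f, hf1, hf2, hf3, fun a b C hC => hf4 a b C hC⟩

/-- (1) If `K` is uncountable and `|K| < |L|` then every condition of the Cohen algebra of `K × L`
(finite partial functions from `K × L` to `{0, 1}`) forces `Hyp K L`. (2) There are such `K` and `L`.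
(3) In ZFC, `Hyp K L` implies that there is a lattice with `2 ^ ℵ₀` elements, with at most four
elements in every chain, which has no join preserving one-to-one map into the lattice of local
clones on `ℕ`. (4) So Q1 then fails. -/
theorem result :
    (∀ K L : Type, Cardinal.aleph0 < #K → #K < #L →
      ∀ p : Cond (K × L), p ∈ HypN (Cond (K × L)) K L) ∧
    (∃ K L : Type, Cardinal.aleph0 < #K ∧ #K < #L) ∧
    (∀ K L : Type, Hyp K L → ∃ (M : Type) (_ : Lattice M),
      (∀ s : Set M, IsChain (· ≤ ·) s → s.encard ≤ 4) ∧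
        #M = Cardinal.continuum ∧ ¬ ∃ f : M → Ops, IsJoinEmbedding f) ∧
    (∀ K L : Type, Hyp K L → ¬ Q1) := by
  refine ⟨fun K L hK hL p => forced hK hL p, ⟨Set ℕ, Set (Set ℕ), ?_, ?_⟩,
    fun K L h => exists_lattice h, fun K L h => not_Q1 h⟩
  · rw [Cardinal.mk_set, Cardinal.mk_nat]
    exact Cardinal.cantor _
  · rw [Cardinal.mk_set (α := Set ℕ)]
    exact Cardinal.cantor _

end Pool.Agent.Results.MP_c0a48b_al.ConsistentlyNot
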